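import Pool.Agent.H66.XP.TG
import Pool.Agent.H88.IQ.GWA

/-!
# GWK: a game whose leaves are formulas on strings of given weight which extend a restriction
-/

set_option autoImplicit false

namespace Pool.Agent.H88.XP

open Finset Pool.Agent.H6.NB Pool.Agent.H70.EH Pool.Agent.H78.XQ
open Pool.Agent.H66.IQ Pool.Agent.H66.XP

namespace GWK

variable {V : Type} [Fintype V] [DecidableEq V]

omit [DecidableEq V] in
theorem ones_le (κ : V → Option Bool) : nv κ (some true) + nv κ none ≤ Fintype.card V := by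
  classical
  unfold nv
  rw [← Finset.card_union_of_disjoint]
  · exact Finset.card_le_univ _
  · rw [Finset.disjoint_filter]
    intro v _ h1 h2
    rw [h1] at h2
    exact absurd h2 (by simp)

end GWK

/-- GWK: a game whose leaves are formulas on strings of given weight which extend `κ`. -/
theorem pf_GWK (hKS2 : T_KS2) (hGWA : Pool.Agent.H66.IQ.T_GWA) : T_GWK := by
  intro V _ _ _ κ S d w W δ t hw hδ hδL hCb hK hW
  obtain ⟨N, hN⟩ : ∃ N : ℝ, N = Fintype.card V := ⟨_, rfl⟩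
  obtain ⟨N', hN'⟩ : ∃ N' : ℝ, N' = (nv κ none : ℝ) := ⟨_, rfl⟩
  obtain ⟨o, ho⟩ : ∃ o : ℝ, o = (nv κ (some true) : ℝ) := ⟨_, rfl⟩
  obtain ⟨L, hL⟩ : ∃ L : ℝ, L = (128 * (w : ℝ)) ^ (d + 1) := ⟨_, rfl⟩
  have hwr : (1 : ℝ) ≤ w := by exact_mod_cast hw
  have hN0 : 0 < N := by
    rw [hN]
    exact_mod_cast Fintype.card_pos
  have hL1 : 1 ≤ L := by
    rw [hL]
    exact one_le_pow₀ (by linarith)
  rw [← hL] at hδL ⊢
  rw [← hN, ← hN'] at hK
  rw [← hN] at hW ⊢
  have hsum : o + N' ≤ N := by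
    rw [ho, hN', hN]
    exact_mod_cast GWK.ones_le κ
  have hδ1 : 120 * δ ≤ 1 := by
    have : 120 * δ * 1 ≤ 120 * δ * L := mul_le_mul_of_nonneg_left hL1 (by positivity)
    linarith
  have hδN : 120 * (δ * N) ≤ N := by
    have := mul_le_mul_of_nonneg_right hδ1 hN0.le
    linarith
  have hδN0 : 0 < δ * N := mul_pos hδ hN0
  have hK' : N - N' ≤ δ * N / 4 := by linarith
  have hN'2 : N / 2 ≤ N' := by linarith
  have ho0 : 0 ≤ o := by
    rw [ho]
    exact Nat.cast_nonneg _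
  obtain ⟨hW1, hW2⟩ := abs_le.1 hW
  have hoW : o ≤ W := by linarith
  have hoW' : nv κ (some true) ≤ W := by
    rw [ho] at hoW
    exact_mod_cast hoW
  obtain ⟨t', hdp, hCb', hwm, hmn⟩ := hKS2 V κ W t hoW'
  have hcard : Fintype.card {v // κ v = none} = nv κ none :=
    Pool.Agent.H88.IQ.GWA.nv_none_card κ
  have hN'0 : 0 < N' := by linarith
  have hne : Nonempty {v // κ v = none} := by
    rw [← Fintype.card_pos_iff, hcard]
    rw [hN'] at hN'0
    exact_mod_cast hN'0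
  have h := hGWA {v // κ v = none} S d w (W - nv κ (some true)) (3 * δ) t' hw (by linarith)
    (by rw [← hL]; linarith) (hCb' _ _ hCb) (by
      rw [hcard, Nat.cast_sub hoW', ← hN', ← ho]
      have h1 : 3 * (δ * N') ≥ 3 * (δ * (N / 2)) :=
        mul_le_mul_of_nonneg_left (mul_le_mul_of_nonneg_left hN'2 hδ.le) (by norm_num)
      have h2 : 3 * δ * N' = 3 * (δ * N') := by ring
      have h3 : 3 * (δ * (N / 2)) = 3 / 2 * (δ * N) := by ring
      rw [h2, abs_le]
      constructor <;> linarith)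
  rw [hwm, hmn]
  refine h.trans ?_
  rw [hcard, ← hN', ← hL]
  have e1 : (2 : ℝ) ^ t'.dp * ((S : ℝ) + 1) ^ (d + 1) / 2 ^ w ≤
      2 ^ t.dp * ((S : ℝ) + 1) ^ (d + 1) / 2 ^ w := by
    refine div_le_div_of_nonneg_right ?_ (by positivity)
    exact mul_le_mul_of_nonneg_right (pow_le_pow_right₀ (by norm_num) hdp) (by positivity)
  have e2 : Real.exp (-(N' * (3 * δ) ^ 2 / 4)) ≤ Real.exp (-(N * δ ^ 2 / 4)) := by
    refine Real.exp_le_exp.2 (neg_le_neg ?_)
    have h1 : N * δ ^ 2 ≤ N' * (3 * δ) ^ 2 := by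
      have h2 : N / 2 * δ ^ 2 ≤ N' * δ ^ 2 := mul_le_mul_of_nonneg_right hN'2 (by positivity)
      have h3 : 0 ≤ N' * δ ^ 2 := by positivity
      have h4 : N' * (3 * δ) ^ 2 = 9 * (N' * δ ^ 2) := by ring
      rw [h4]
      linarith
    linarith
  have e3 : √(2 * L / N') ≤ √(4 * L / N) := by
    refine Real.sqrt_le_sqrt ?_
    rw [div_le_div_iff₀ hN'0 hN0]
    have h1 : 4 * L * (N / 2) ≤ 4 * L * N' := mul_le_mul_of_nonneg_left hN'2 (by positivity)
    linarith
  have e4 : 32 * L / N' ≤ 64 * L / N := by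
    rw [div_le_div_iff₀ hN'0 hN0]
    have h1 : 64 * L * (N / 2) ≤ 64 * L * N' := mul_le_mul_of_nonneg_left hN'2 (by positivity)
    linarith
  have e5 : 4 * (w : ℝ) * (5 * (3 * δ) * L + √(2 * L / N')) ≤
      4 * (w : ℝ) * (15 * δ * L + √(4 * L / N)) := by
    refine mul_le_mul_of_nonneg_left ?_ (by positivity)
    have : 5 * (3 * δ) * L = 15 * δ * L := by ring
    rw [this]
    linarith
  linarith

end Pool.Agent.H88.XP
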