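import Pool.Agent.H66.XP.TH
import Pool.Agent.H32.IP.IZU
import Pool.Agent.H19.NB.Small

/-!
# MKX: properties of the masks
-/

set_option autoImplicit false

namespace Pool.Agent.H88.XP

open Finset Pool.Agent.H6.NB Pool.Agent.H70.OQ Pool.Agent.H70.EH Pool.Agent.H70.EI Pool.Agent.H78.XQ
open Pool.Agent.H66.IP (Local ins sp dm IsZ scl)
open Pool.Agent.H66.IQ Pool.Agent.H66.AV Pool.Agent.H66.XP
open Pool.Agent.H75.OM (BPos)

namespace MKX

theorem pos_inj1 {s : List Bool} {u u' : Fin (2 * s.length) → Bool} {v v' : List Bool}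
    {b b' : Bool} (h : pos s (List.ofFn u) v b = pos s (List.ofFn u') v' b') : u = u' := by
  unfold pos at h
  obtain ⟨_, c, _⟩ := Pool.Agent.H19.NB.t_cod.1 _ _ _ _ _ _ h
  exact List.ofFn_injective (List.append_inj c (by simp)).1

theorem wps_inj1 {s : List Bool} {m : ℕ} {z z' : Fin m → Bool}
    (h : wps s (List.ofFn z) = wps s (List.ofFn z')) : z = z' := by
  unfold wps at h
  obtain ⟨_, c, _⟩ := Pool.Agent.H19.NB.t_cod.1 _ _ _ _ _ _ h
  exact List.ofFn_injective c

variable {V : ℕ → Exq} {E : Finset (ℕ × List Bool)}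
  {O : (∀ p : {a // a ∈ E}, Cp V p.1) → (List Bool → Bool) → List Bool → Bool}

/-- the queried strings of the machines of small scale -/
noncomputable def qs' (V : ℕ → Exq) (E : Finset (ℕ × List Bool))
    (O : (∀ p : {a // a ∈ E}, Cp V p.1) → (List Bool → Bool) → List Bool → Bool)
    (g : List Bool → Bool) (P B : ∀ p : {a // a ∈ E}, Cp V p.1) (r : ℕ) : Finset (List Bool) :=
  (E.filter fun a => scl (lo V) a ≤ r).biUnion fun a => (tq V E O g P B a).toFinset

theorem qs'_card (hQDP : T_QDP) (hCNX : T_CNX) (g : List Bool → Bool)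
    (P B : ∀ p : {a // a ∈ E}, Cp V p.1) (r : ℕ) : (qs' V E O g P B r).card ≤ 2 ^ (2 * r) := by
  unfold qs'
  refine Finset.card_biUnion_le.trans (le_trans (Finset.sum_le_sum fun a _ => ?_) (hCNX V E r).1)
  exact (List.toFinset_card_le _).trans (hQDP _ _).1

theorem mem_qs' {g : List Bool → Bool} {P B : ∀ p : {a // a ∈ E}, Cp V p.1} {r : ℕ}
    {a : ℕ × List Bool} {w : List Bool} (ha : a ∈ E) (hr : scl (lo V) a ≤ r)
    (hw : w ∈ tq V E O g P B a) : w ∈ qs' V E O g P B r := by
  unfold qs'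
  rw [Finset.mem_biUnion]
  exact ⟨a, Finset.mem_filter.2 ⟨ha, hr⟩, List.mem_toFinset.2 hw⟩

theorem sm (hQDP : T_QDP) (hCNX : T_CNX) (g : List Bool → Bool)
    (P B : ∀ p : {a // a ∈ E}, Cp V p.1) (a : ℕ × List Bool) :
    Sm V a (msk V E O g P B a) := by
  classical
  refine ⟨?_, ?_⟩
  · refine le_trans ?_ (qs'_card (O := O) hQDP hCNX g P B (scl (lo V) a))
    refine Finset.card_le_card_of_forall_subsingleton
      (fun u w => ∃ v : VV (qs (sp (lo V) a)),
        w = pos (sp (lo V) a) (List.ofFn u) (List.ofFn v.2) v.1) ?_ ?_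
    · intro u hu
      simp only [msk, Finset.mem_filter] at hu
      obtain ⟨_, a', ha', hs, w, hw, v, hv⟩ := hu
      exact ⟨w, mem_qs' ha' hs hw, v, hv⟩
    · intro w _ u hu u' hu'
      obtain ⟨_, v, hv⟩ := hu
      obtain ⟨_, v', hv'⟩ := hu'
      exact pos_inj1 (hv.symm.trans hv')
  · refine le_trans ?_ (qs'_card (O := O) hQDP hCNX g P B (scl (lo V) a))
    refine Finset.card_le_card_of_forall_subsingleton
      (fun z w => w = wps (sp (lo V) a) (List.ofFn z)) ?_ ?_
    · intro z hz
      simp only [msk, Finset.mem_filter] at hz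
      obtain ⟨_, a', ha', hs, w, hw, hv⟩ := hz
      exact ⟨w, mem_qs' ha' hs hw, hv⟩
    · intro w _ z hz z' hz'
      exact wps_inj1 (hz.2.symm.trans hz'.2)

/-- the mask depends only on the queried strings -/
theorem msk_congr (g : List Bool → Bool) (P B P' B' : ∀ p : {a // a ∈ E}, Cp V p.1)
    (p : ℕ × List Bool) (h : ∀ a ∈ E, scl (lo V) a ≤ scl (lo V) p →
      tq V E O g P' B' a = tq V E O g P B a) :
    msk V E O g P' B' p = msk V E O g P B p := by
  classical
  unfold msk
  refine Prod.ext ?_ ?_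
  · refine Finset.filter_congr fun u _ => ?_
    constructor
    · rintro ⟨a, ha, hs, w, hw, hv⟩
      exact ⟨a, ha, hs, w, by rw [← h a ha hs]; exact hw, hv⟩
    · rintro ⟨a, ha, hs, w, hw, hv⟩
      exact ⟨a, ha, hs, w, by rw [h a ha hs]; exact hw, hv⟩
  · refine Finset.filter_congr fun u _ => ?_
    constructor
    · rintro ⟨a, ha, hs, w, hw, hv⟩
      exact ⟨a, ha, hs, w, by rw [← h a ha hs]; exact hw, hv⟩
    · rintro ⟨a, ha, hs, w, hw, hv⟩
      exact ⟨a, ha, hs, w, by rw [h a ha hs]; exact hw, hv⟩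

theorem mxc_P (P B : ∀ p : {a // a ∈ E}, Cp V p.1) (s : ℕ) (p : {a // a ∈ E}) (c : Cp V p.1)
    (h : s ≤ scl (lo V) p.1) : mxc V E s (Function.update P p c) B = mxc V E s P B := by
  funext p'
  unfold mxc
  by_cases hp : scl (lo V) p'.1 < s
  · rw [if_pos hp, if_pos hp]
    have hne : p' ≠ p := by
      rintro rfl
      omega
    rw [Function.update_of_ne hne]
  · rw [if_neg hp, if_neg hp]

theorem mxc_B1 (P B : ∀ p : {a // a ∈ E}, Cp V p.1) (s : ℕ) (p : {a // a ∈ E}) (c : Cp V p.1)
    (h : scl (lo V) p.1 < s) : mxc V E s P (Function.update B p c) = mxc V E s P B := by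
  funext p'
  unfold mxc
  by_cases hp : scl (lo V) p'.1 < s
  · rw [if_pos hp, if_pos hp]
  · rw [if_neg hp, if_neg hp]
    have hne : p' ≠ p := by
      rintro rfl
      exact hp h
    rw [Function.update_of_ne hne]

theorem mxc_B2 (P B : ∀ p : {a // a ∈ E}, Cp V p.1) (s : ℕ) (p : {a // a ∈ E}) (c : Cp V p.1)
    (h : s ≤ scl (lo V) p.1) :
    mxc V E s P (Function.update B p c) = Function.update (mxc V E s P B) p c := by
  funext p'
  by_cases hne : p' = p
  · subst hne
    rw [Function.update_self]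
    unfold mxc
    rw [if_neg (by omega), Function.update_self]
  · rw [Function.update_of_ne hne]
    unfold mxc
    by_cases hp : scl (lo V) p'.1 < s
    · rw [if_pos hp, if_pos hp]
    · rw [if_neg hp, if_neg hp, Function.update_of_ne hne]

theorem upd_P (g : List Bool → Bool) (P B : ∀ p : {a // a ∈ E}, Cp V p.1)
    (a : ℕ × List Bool) (p : {a // a ∈ E}) (c : Cp V p.1) (h : scl (lo V) a ≤ scl (lo V) p.1) :
    vw V E O g (Function.update P p c) B a = vw V E O g P B a := by
  unfold vw
  rw [mxc_P P B _ p c h]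

theorem upd_B (hQDP : T_QDP) (hO : IsZ (dm (lo V)) E O) (g : List Bool → Bool)
    (P B : ∀ p : {a // a ∈ E}, Cp V p.1) (p : {a // a ∈ E}) (c : Cp V p.1)
    (hc : Ag (msk V E O g P B p.1) (B p) c) (a : ℕ × List Bool) (ha : a ∈ E) :
    Pool.Agent.H66.XP.an V E O g P (Function.update B p c) a =
        Pool.Agent.H66.XP.an V E O g P B a ∧
      tq V E O g P (Function.update B p c) a = tq V E O g P B a := by
  classical
  by_cases hs : scl (lo V) p.1 < scl (lo V) a
  · unfold Pool.Agent.H66.XP.an tq vw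
    rw [mxc_B1 P B _ p c hs]
    exact ⟨rfl, rfl⟩
  push Not at hs
  have hM := mxc_B2 P B _ p c hs
  have hMp : mxc V E (scl (lo V) a) P B p = B p := by
    unfold mxc
    rw [if_neg (by omega)]
  have key : ∀ w ∈ tq V E O g P B a, vw V E O g P (Function.update B p c) a w =
      vw V E O g P B a w := by
    intro w hw
    unfold vw
    rw [hM]
    by_cases hb : BPos (dm (lo V)) p.1 w
    · rcases hb with ⟨u, v, b, rfl⟩ | ⟨z, rfl⟩
      · have e1 := Pool.Agent.H32.IP.izu_pos hO (Function.update (mxc V E (scl (lo V) a) P B) p c)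
          (gd (3 * scl (lo V) a) g) p.1 p.2 u v b
        have e2 := Pool.Agent.H32.IP.izu_pos hO (mxc V E (scl (lo V) a) P B)
          (gd (3 * scl (lo V) a) g) p.1 p.2 u v b
        rw [e1, e2]
        change (Function.update (mxc V E (scl (lo V) a) P B) p c p).1 u (b, v) =
          (mxc V E (scl (lo V) a) P B p).1 u (b, v)
        rw [Function.update_self, hMp]
        have hu : u ∈ (msk V E O g P B p.1).1 := by
          simp only [msk, Finset.mem_filter]
          exact ⟨Finset.mem_univ _, a, ha, hs, _, hw, (b, v), rfl⟩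
        rw [hc.1 u hu]
      · have e1 := Pool.Agent.H32.IP.izu_wps hO (Function.update (mxc V E (scl (lo V) a) P B) p c)
          (gd (3 * scl (lo V) a) g) p.1 p.2 z
        have e2 := Pool.Agent.H32.IP.izu_wps hO (mxc V E (scl (lo V) a) P B)
          (gd (3 * scl (lo V) a) g) p.1 p.2 z
        rw [e1, e2]
        change (Function.update (mxc V E (scl (lo V) a) P B) p c p).2 z =
          (mxc V E (scl (lo V) a) P B p).2 z
        rw [Function.update_self, hMp]
        have hu : z ∈ (msk V E O g P B p.1).2 := by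
          simp only [msk, Finset.mem_filter]
          exact ⟨Finset.mem_univ _, a, ha, hs, _, hw, rfl⟩
        rw [hc.2 z hu]
    · have e := Pool.Agent.H32.IP.izu_out hO (mxc V E (scl (lo V) a) P B)
          (gd (3 * scl (lo V) a) g) p.1 p.2 w c hb
      exact e
  have h := (hQDP (vw V E O g P B a) ((V a.1).tree a.2)).2
    (vw V E O g P (Function.update B p c) a) key
  exact ⟨h.2, h.1⟩

end MKX

/-- MKX: properties of the masks. -/
theorem pf_MKX (hQDP : T_QDP) (hCNX : T_CNX) (_hIZU : Pool.Agent.H66.IP.T_IZU)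
    (_hSPF : Pool.Agent.H66.IP.T_SPF) : T_MKX := by
  intro V E O hO g P B
  refine ⟨fun a => MKX.sm hQDP hCNX g P B a, fun a p c h => ⟨?_, ?_, ?_⟩, fun p c hc => ⟨?_, ?_⟩⟩
  · unfold Pool.Agent.H66.XP.an
    rw [MKX.upd_P g P B a p c h]
  · unfold tq
    rw [MKX.upd_P g P B a p c h]
  · refine MKX.msk_congr g P B _ _ a fun a' _ hs => ?_
    unfold tq
    rw [MKX.upd_P g P B a' p c (hs.trans h)]
  · intro a ha
    exact MKX.upd_B hQDP hO g P B p c hc a ha
  · intro a
    exact MKX.msk_congr g P B _ _ a fun a' ha' _ => (MKX.upd_B hQDP hO g P B p c hc a' ha').2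

end Pool.Agent.H88.XP
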